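import Pool.Agent.Helper57.SL.Stmts

/-!
# Row DES: upper and lower bounds for the Euler product
-/

set_option autoImplicit false

namespace Pool.Agent.Helper38.SL

open MeasureTheory Set Filter Topology
open Pool.Agent.Helper57.QZ (Pr tor circ aa Zy Wy Sy Vy Ky pt lin)
open Pool.Agent.Helper57.SL

theorem des_split (g : ℕ → ℝ) {z y : ℕ} (h : z ≤ y) :
    ∑ p ∈ Nat.primesBelow (y + 1), g p = ∑ p ∈ Nat.primesBelow (z + 1), g p +
      ∑ p ∈ Nat.primesBelow (y + 1), (if z < p then g p else 0) := by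
  have h1 : Nat.primesBelow (z + 1) = (Nat.primesBelow (y + 1)).filter (fun p => p ≤ z) := by
    ext p
    simp only [Nat.primesBelow, Finset.mem_filter, Finset.mem_range]
    constructor
    · rintro ⟨a, b⟩
      exact ⟨⟨by omega, b⟩, by omega⟩
    · rintro ⟨⟨a, b⟩, c⟩
      exact ⟨by omega, b⟩
  rw [h1, Finset.sum_filter, ← Finset.sum_add_distrib]
  refine Finset.sum_congr rfl fun p _ => ?_
  by_cases hp : p ≤ z
  · rw [if_pos hp, if_neg (by omega), add_zero]
  · rw [if_neg hp, if_pos (by omega), zero_add]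

theorem des_sub (y : ℕ) (g : ℕ → ℝ) : ∑ p : Pr y, g (p : ℕ) = ∑ p ∈ Nat.primesBelow (y + 1), g p :=
  Finset.sum_coe_sort (Nat.primesBelow (y + 1)) g

theorem des_step (x : ℝ) (hx : 0 < x) :
    1 / Real.sqrt (x + 1) ^ 3 ≤ 2 / Real.sqrt x - 2 / Real.sqrt (x + 1) := by
  have ha : 0 < Real.sqrt x := Real.sqrt_pos.2 hx
  have hb : 0 < Real.sqrt (x + 1) := Real.sqrt_pos.2 (by linarith)
  have hab : Real.sqrt x ≤ Real.sqrt (x + 1) := Real.sqrt_le_sqrt (by linarith)
  have ha2 : Real.sqrt x ^ 2 = x := Real.sq_sqrt hx.le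
  have hb2 : Real.sqrt (x + 1) ^ 2 = x + 1 := Real.sq_sqrt (by linarith)
  set a := Real.sqrt x
  set b := Real.sqrt (x + 1)
  have h1 : (b - a) * (a + b) = 1 := by nlinarith
  have h2 : b - a = 1 / (a + b) := by
    rw [eq_div_iff (by positivity)]
    exact h1
  have h3 : 2 / a - 2 / b = 2 / (a * b * (a + b)) := by
    rw [div_sub_div _ _ ha.ne' hb.ne', div_eq_div_iff (by positivity) (by positivity)]
    nlinarith [mul_pos ha hb]
  rw [h3, div_le_div_iff₀ (by positivity) (by positivity)]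
  have h4 : a * b * (a + b) ≤ b * b * (b + b) := by gcongr
  nlinarith

theorem des_ioc {z : ℕ} (hz : 1 ≤ z) (y : ℕ) (h : z ≤ y) :
    ∑ n ∈ Finset.Ioc z y, 1 / Real.sqrt (n : ℝ) ^ 3 ≤ 2 / Real.sqrt z - 2 / Real.sqrt y := by
  induction y, h using Nat.le_induction with
  | base => simp
  | succ n hn ih =>
    rw [← Finset.insert_Ioc_right_eq_Ioc_add_one (by omega), Finset.sum_insert (by simp)]
    have h1 := des_step n (by exact_mod_cast (by omega : 0 < n))
    push_cast
    linarith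

theorem des_aa {p : ℕ} {σ : ℝ} (hp : 1 ≤ p) (hσ : 3 / 4 ≤ σ) :
    aa σ p ^ 2 ≤ 1 / Real.sqrt (p : ℝ) ^ 3 := by
  have hp0 : (0 : ℝ) ≤ p := Nat.cast_nonneg _
  have hp1 : (1 : ℝ) ≤ p := by exact_mod_cast hp
  have e1 : aa σ p ^ 2 = (p : ℝ) ^ (-σ * 2) := by
    rw [aa, ← Real.rpow_natCast, ← Real.rpow_mul hp0]
    norm_num
  have e2 : 1 / Real.sqrt (p : ℝ) ^ 3 = (p : ℝ) ^ (-(3 / 2) : ℝ) := by
    rw [Real.sqrt_eq_rpow, ← Real.rpow_natCast, ← Real.rpow_mul hp0, Real.rpow_neg hp0, one_div]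
    norm_num
  rw [e1, e2]
  exact Real.rpow_le_rpow_of_exponent_le hp1 (by linarith)

theorem des_tail {z y : ℕ} {σ : ℝ} (hσ : 3 / 4 ≤ σ) (hz : 1 ≤ z) (h : z ≤ y) :
    ∑ p ∈ Nat.primesBelow (y + 1), (if z < p then aa σ p ^ 2 else 0) ≤ 2 / Real.sqrt z := by
  have h1 : ∑ p ∈ Nat.primesBelow (y + 1), (if z < p then aa σ p ^ 2 else 0) ≤
      ∑ n ∈ Finset.Ioc z y, 1 / Real.sqrt (n : ℝ) ^ 3 := by
    rw [← Finset.sum_filter]
    refine (Finset.sum_le_sum (g := fun n : ℕ => 1 / Real.sqrt (n : ℝ) ^ 3) fun p hp => ?_).trans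
      (Finset.sum_le_sum_of_subset_of_nonneg ?_ fun _ _ _ => by positivity)
    · rw [Finset.mem_filter] at hp
      exact des_aa (by omega) hσ
    · intro p hp
      simp only [Nat.primesBelow, Finset.mem_filter, Finset.mem_range] at hp
      rw [Finset.mem_Ioc]
      exact ⟨hp.2, by omega⟩
  have h2 := des_ioc hz y h
  have h3 : 0 ≤ 2 / Real.sqrt y := by positivity
  linarith

theorem st_DES (h : Pool.Agent.Helper57.QZ.ST_DT1) : ST_DES := by
  refine ⟨64, by norm_num, ?_⟩
  intro y z Z t σ e hσ hz hzZ hZy hT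
  obtain ⟨hne, hup, hlow, -⟩ := h y σ (lin y t) (by linarith [hσ.1])
  have haa : ∀ p : ℕ, 0 ≤ aa σ p := fun p => Real.rpow_nonneg (Nat.cast_nonneg _) _
  -- the three pieces of the linear part
  have hS : Sy y σ (lin y t) =
      ∑ p ∈ Nat.primesBelow (y + 1), aa σ p * Real.cos (t * Real.log p) :=
    des_sub y fun p => aa σ p * Real.cos (t * Real.log p)
  have hR : (ts 0 σ y Z (lin y t)).re =
      ∑ p ∈ Nat.primesBelow (y + 1), (if Z < p then aa σ p * Real.cos (t * Real.log p)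
        else 0) := by
    rw [← des_sub y fun p => if Z < p then aa σ p * Real.cos (t * Real.log p) else 0]
    unfold ts
    rw [Complex.re_sum]
    refine Finset.sum_congr rfl fun p _ => ?_
    by_cases hp : Z < (p : ℕ)
    · rw [if_pos hp, if_pos hp, pow_zero, one_mul, Complex.re_ofReal_mul]
      congr 1
      have e : -(((lin y t p : ℝ) : ℂ) * Complex.I) =
          ((-(t * Real.log ((p : ℕ) : ℝ)) : ℝ) : ℂ) * Complex.I := by
        simp [lin]
      rw [e, Complex.exp_ofReal_mul_I_re, Real.cos_neg]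
    · rw [if_neg hp, if_neg hp]
      simp
  have hspZ := des_split (fun p => aa σ p * Real.cos (t * Real.log p)) hZy
  have hspz := des_split (fun p => aa σ p * Real.cos (t * Real.log p)) hzZ
  have hF : F1 σ y Z (lin y t) =
      ∑ p ∈ Nat.primesBelow (Z + 1), aa σ p * (1 - Real.cos (t * Real.log p)) := by
    have e1 : F1 σ y Z (lin y t) = ∑ p ∈ Nat.primesBelow (y + 1),
        (if p ≤ Z then aa σ p * (1 - Real.cos (t * Real.log p)) else 0) :=
      des_sub y fun p => if p ≤ Z then aa σ p * (1 - Real.cos (t * Real.log p)) else 0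
    rw [e1, ← Finset.sum_filter]
    refine Finset.sum_congr ?_ fun _ _ => rfl
    ext p
    simp only [Nat.primesBelow, Finset.mem_filter, Finset.mem_range]
    constructor
    · rintro ⟨⟨a, b⟩, c⟩
      exact ⟨by omega, b⟩
    · rintro ⟨a, b⟩
      exact ⟨⟨by omega, b⟩, by omega⟩
  have hFS : S1 σ Z - F1 σ y Z (lin y t) =
      ∑ p ∈ Nat.primesBelow (Z + 1), aa σ p * Real.cos (t * Real.log p) := by
    rw [hF, S1, ← Finset.sum_sub_distrib]
    refine Finset.sum_congr rfl fun p _ => ?_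
    rw [aa]
    ring
  have hre1 : (ts 0 σ y Z (lin y t)).re ≤ e := (Complex.re_le_norm _).trans hT
  have hre : -e ≤ (ts 0 σ y Z (lin y t)).re :=
    (neg_le_neg hT).trans (abs_le.1 (Complex.abs_re_le_norm _)).1
  refine ⟨by rw [hS, hspZ, ← hFS, ← hR] at hup; linarith, fun hE => ?_⟩
  have hEs : E1 σ z 0 t =
      ∑ p ∈ Nat.primesBelow (z + 1), aa σ p * (1 - Real.cos (t * Real.log p)) := by
    rw [← des_sub z fun p => aa σ p * (1 - Real.cos (t * Real.log p))]
    unfold E1
    refine Finset.sum_congr rfl fun p _ => ?_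
    rw [add_zero]
    rfl
  have hP : S1 σ z - E1 σ z 0 t =
      ∑ p ∈ Nat.primesBelow (z + 1), aa σ p * Real.cos (t * Real.log p) := by
    rw [hEs, S1, ← Finset.sum_sub_distrib]
    refine Finset.sum_congr rfl fun p _ => ?_
    rw [aa]
    ring
  -- the middle range
  have hmid : -(S1 σ Z - S1 σ z) ≤ ∑ p ∈ Nat.primesBelow (Z + 1),
      (if z < p then aa σ p * Real.cos (t * Real.log p) else 0) := by
    have e1 := des_split (fun p => aa σ p) hzZ
    have e2 : S1 σ Z = ∑ p ∈ Nat.primesBelow (Z + 1), aa σ p := rfl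
    have e3 : S1 σ z = ∑ p ∈ Nat.primesBelow (z + 1), aa σ p := rfl
    have e4 : S1 σ Z - S1 σ z = ∑ p ∈ Nat.primesBelow (Z + 1), (if z < p then aa σ p else 0) := by
      rw [e2, e3, e1]
      ring
    rw [e4, ← Finset.sum_neg_distrib]
    refine Finset.sum_le_sum fun p _ => ?_
    by_cases hp : z < p
    · rw [if_pos hp, if_pos hp]
      have h2 := Real.neg_one_le_cos (t * Real.log p)
      nlinarith [haa p]
    · rw [if_neg hp, if_neg hp, neg_zero]
  have hS2 : S1 σ z - (S1 σ Z - S1 σ z) - 2 * e ≤ Sy y σ (lin y t) := by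
    rw [hS, hspZ, hspz, ← hP, ← hR]
    linarith
  -- the quadratic part
  have hzy : z ≤ y := hzZ.trans hZy
  have hQ : ∑ p : Pr y, aa σ p ^ 2 * (1 - Real.cos (lin y t p)) ≤ e + 4 * (1 / Real.sqrt z) := by
    have e1 : ∑ p : Pr y, aa σ p ^ 2 * (1 - Real.cos (lin y t p)) =
        ∑ p ∈ Nat.primesBelow (y + 1), aa σ p ^ 2 * (1 - Real.cos (t * Real.log p)) :=
      des_sub y fun p => aa σ p ^ 2 * (1 - Real.cos (t * Real.log p))
    rw [e1, des_split (fun p => aa σ p ^ 2 * (1 - Real.cos (t * Real.log p))) hzy]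
    have e2 : ∑ p ∈ Nat.primesBelow (z + 1), aa σ p ^ 2 * (1 - Real.cos (t * Real.log p)) ≤
        E1 σ z 0 t := by
      rw [hEs]
      refine Finset.sum_le_sum fun p hp => ?_
      simp only [Nat.primesBelow, Finset.mem_filter, Finset.mem_range] at hp
      have h1 : (1 : ℝ) ≤ p := by exact_mod_cast hp.2.one_lt.le
      have h2 : 0 ≤ 1 - Real.cos (t * Real.log p) := by
        have := Real.cos_le_one (t * Real.log p)
        linarith
      have h3 : aa σ p ≤ 1 := by
        rw [aa]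
        exact Real.rpow_le_one_of_one_le_of_nonpos h1 (by linarith [hσ.1])
      have h4 : aa σ p ^ 2 ≤ aa σ p := by nlinarith [haa p]
      exact mul_le_mul_of_nonneg_right h4 h2
    have e3 : ∑ p ∈ Nat.primesBelow (y + 1),
        (if z < p then aa σ p ^ 2 * (1 - Real.cos (t * Real.log p)) else 0) ≤
        2 * ∑ p ∈ Nat.primesBelow (y + 1), (if z < p then aa σ p ^ 2 else 0) := by
      rw [Finset.mul_sum]
      refine Finset.sum_le_sum fun p _ => ?_
      by_cases hp : z < p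
      · rw [if_pos hp, if_pos hp]
        have h2 := Real.neg_one_le_cos (t * Real.log p)
        have h3 : 0 ≤ aa σ p ^ 2 := by positivity
        nlinarith
      · rw [if_neg hp, if_neg hp, mul_zero]
    have e4 := des_tail hσ.1 hz hzy
    have e6 : (2 : ℝ) / Real.sqrt z = 2 * (1 / Real.sqrt z) := by ring
    rw [e6] at e4
    linarith
  have e5 : (64 : ℝ) / Real.sqrt z = 64 * (1 / Real.sqrt z) := by ring
  rw [e5]
  linarith

end Pool.Agent.Helper38.SL
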